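import Pool.Agent.Helper9_CG.Stmt
import Pool.Agent.Helper7_CG.Vio
import Pool.Agent.Helper48_LLG.Match

/-!
# CG, module MATCHC: the graphs of maximum degree four of one round, the sinks, the forced edges
-/

set_option autoImplicit false

namespace Pool.Agent.CG

open SimpleGraph Pool.Agent.LAG Pool.Agent.LLG Pool.Agent.LLG.H48.Match

namespace H46

section basics

variable {V : Type}

/-- The graph of a digraph. -/
def UG (m : V → V → Prop) (hm : ∀ x y, m x y → x ≠ y) : SimpleGraph V where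
  Adj x y := m x y ∨ m y x
  symm := ⟨fun _ _ h => h.symm⟩
  loopless := ⟨fun x h => h.elim (fun h => hm x x h rfl) (fun h => hm x x h rfl)⟩

lemma ug_nbr [Finite V] (m : V → V → Prop) (hm : ∀ x y, m x y → x ≠ y)
    (ha : ∀ x y, m x y → ¬ m y x) (v : V) :
    ((UG m hm).neighborSet v).ncard = {w | m v w}.ncard + {w | m w v}.ncard := by
  have h1 : (UG m hm).neighborSet v = {w | m v w} ∪ {w | m w v} := rfl
  rw [h1, Set.ncard_union_eq _ (Set.toFinite _) (Set.toFinite _)]
  rw [Set.disjoint_left]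
  intro w h1 h2
  exact ha _ _ h1 h2

lemma ncard_iUnion_eq [Finite V] {ι : Type} [Fintype ι] (S : ι → Set V)
    (h : ∀ i i', i ≠ i' → Disjoint (S i) (S i')) : (⋃ i, S i).ncard = ∑ i, (S i).ncard := by
  classical
  have h1 : (⋃ i, S i) =
      ((Finset.univ.biUnion fun i => (S i).toFinite.toFinset : Finset V) : Set V) := by
    ext x
    simp
  rw [h1, Set.ncard_coe_finset, Finset.card_biUnion]
  · exact Finset.sum_congr rfl fun i _ => (Set.ncard_eq_toFinset_card (S i) _).symm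
  · intro i _ i' _ hii
    rw [Function.onFun, Finset.disjoint_left]
    intro x h2 h3
    rw [Set.Finite.mem_toFinset] at h2 h3
    exact Set.disjoint_left.1 (h i i' hii) h2 h3

lemma sum_deg [Finite V] {ι : Type} [Fintype ι] (H : ι → SimpleGraph V) (G : SimpleGraph V)
    (hd : ∀ i i', i ≠ i' → Disjoint (H i) (H i')) (hs : (⨆ i, H i) = G) (v : V) :
    ∑ i, ((H i).neighborSet v).ncard = (G.neighborSet v).ncard := by
  rw [← ncard_iUnion_eq]
  · congr 1
    rw [← hs]
    ext w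
    simp only [Set.mem_iUnion, mem_neighborSet, iSup_adj]
  · intro i i' hii
    rw [Set.disjoint_left]
    intro w h1 h2
    have := hd i i' hii
    rw [disjoint_iff_inf_le] at this
    exact this (v := v) (w := w) ⟨h1, h2⟩

end basics

theorem matchc (hRll : RllcStmt) (hMoo : MoogStmt) (hDen : DenStmt) (hEvs : EvsStmt)
    (hOri : OriStmt) (hPet : PetcStmt) : MatchcStmt := by
  classical
  intro V _ A R Q k s T c j b d w q h N n η M hd1 hC hE hT hj hS hreg Ξ _ ce hce1 hce2
  obtain ⟨O, hRO, hOa, hOd⟩ := hOri V R k hreg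
  have hNP := hC.1
  obtain ⟨hjc, hc1, hjs, hjs2, hs4, hm1, hsb, -⟩ := hNP
  have hk1 : 1 ≤ k := hE.1
  have h200 : 200 ≤ h := hE.2.2.2.2.1
  have hj1 : 1 ≤ j := by omega
  have : NeZero s := ⟨by omega⟩
  have hOR : ∀ x y, O x y → R.Adj x y := fun x y hxy => (hRO x y).2 (Or.inl hxy)
  have hBR : Big R (2 * h) := hS.big.le hS.le
  have hB400 : Big A 400 := hS.big.mono (by omega)
  -- the two sides
  have hSid1 : Sid O k (2 * d) (d ^ h) q (alw A Q) :=
    ⟨hMoo V R O d h hOR hOa hBR hd1 (by omega),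
      hDen V A R O Q k q hk1 hS.le hOR hOa hOd hB400 hS.bal⟩
  have hSid2 : Sid (fun x y => O y x) k (2 * d) (d ^ h) q (alw A Q) :=
    ⟨hMoo V R (fun x y => O y x) d h (fun x y hxy => (hOR y x hxy).symm)
      (fun x y hxy => hOa y x hxy) hBR hd1 (by omega),
      hDen V A R (fun x y => O y x) Q k q hk1 hS.le (fun x y hxy => (hOR y x hxy).symm)
      (fun x y hxy => hOa y x hxy) (fun v => ⟨(hOd v).2, (hOd v).1⟩) hB400 hS.bal⟩
  obtain ⟨hEv1, hEv2⟩ := hEvs V A R O Q k s q h N n η hE hS.le (fun v => (hreg v).le) hS.big hRO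
    hOa hS.bal
  have hball : ∀ v, {x | near A 2000 x v}.ncard ≤ (2 * k + 3) ^ 2000 := by
    intro v
    have h1 := ball V A (2 * k + 2) (degA hS) 2000 v
    have h2 : Nat.card {x : V // near A 2000 x v} = ({x : V | near A 2000 x v} : Set V).ncard :=
      Nat.card_coe_set_eq _
    rw [h2] at h1
    exact h1
  have : Fintype (EvI A R Q N n) := Fintype.ofFinite _
  -- the oriented candidates
  have harc : ∀ ξ r, O (arc O (ce ξ r).1 (ce ξ r).2).1 (arc O (ce ξ r).1 (ce ξ r).2).2 ∧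
      (arc O (ce ξ r).1 (ce ξ r).2 = ((ce ξ r).1, (ce ξ r).2) ∨
        arc O (ce ξ r).1 (ce ξ r).2 = ((ce ξ r).2, (ce ξ r).1)) := by
    intro ξ r
    rcases (hRO _ _).1 (hce1 ξ r) with h1 | h1
    · rw [(arc_of hOa h1).1]
      exact ⟨h1, Or.inl rfl⟩
    · rw [(arc_of hOa h1).2]
      exact ⟨h1, Or.inr rfl⟩
  have he2 : ∀ ξ r ξ' r', (ξ, r) ≠ (ξ', r') →
      (arc O (ce ξ r).1 (ce ξ r).2).1 ≠ (arc O (ce ξ' r').1 (ce ξ' r').2).1 ∧
      (arc O (ce ξ r).1 (ce ξ r).2).2 ≠ (arc O (ce ξ' r').1 (ce ξ' r').2).2 := by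
    intro ξ r ξ' r' hne
    obtain ⟨n1, n2, n3, n4⟩ := hce2 ξ r ξ' r' hne
    rcases (harc ξ r).2 with h1 | h1 <;> rcases (harc ξ' r').2 with h2 | h2 <;>
      · rw [h1, h2]
        simp only
        refine ⟨?_, ?_⟩ <;> assumption
  obtain ⟨col, lab, sel, hl1, hl2, hev, hH1, hH2⟩ := hRll V O k s c j b (d ^ h) (2 * d) w q
    ((2 * k + 3) ^ 2000) (max N n) η M (alw A Q) (fun u v => near A 2000 u v) (EvI A R Q N n)
    (evA A R O Q N n) Ξ (fun ξ r => arc O (ce ξ r).1 (ce ξ r).2) hC hOd hSid1 hSid2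
    (fun _ _ hxy => near_symm hxy) hball hEv1 hEv2 (fun ξ r => (harc ξ r).1) he2
  -- the factors
  have hM : ∀ t : Fin s, ∃ H : V → V → Prop,
      (∀ x y, (O x y ∧ col x y = t ∧
        ∃ ξ, arc O (ce ξ (sel ξ)).1 (ce ξ (sel ξ)).2 = (x, y)) → H x y) ∧
      (∀ x y, H x y → O x y ∧ col x y = t) ∧
      (∀ x, {y | H x y}.ncard ≤ 5 * j ∧ 5 * j ≤ {y | H x y}.ncard + 1 ∧
        (lab x ≠ some (t, true) → {y | H x y}.ncard = 5 * j)) ∧
      ∀ y, {x | H x y}.ncard ≤ 5 * j ∧ 5 * j ≤ {x | H x y}.ncard + 1 ∧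
        (lab y ≠ some (t, false) → {x | H x y}.ncard = 5 * j) := by
    intro t
    obtain ⟨H, a1, a2, a3, a4⟩ := H7.fhm V (fun x y => O x y ∧ col x y = t)
      (fun x y => O x y ∧ col x y = t ∧ ∃ ξ, arc O (ce ξ (sel ξ)).1 (ce ξ (sel ξ)).2 = (x, y))
      {v | lab v = some (t, true)} {v | lab v = some (t, false)} (5 * j) (by omega)
      (fun x y hxy => ⟨hxy.1, hxy.2.1⟩) (hH1 t) (hH2 t)
    exact ⟨H, a1, a2, a3, a4⟩
  choose mm a1 a2 a3 a4 using hM
  have hne : ∀ i x y, mm i x y → x ≠ y := fun i x y hxy => (hOR x y (a2 i x y hxy).1).ne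
  have hasy : ∀ i x y, mm i x y → ¬ mm i y x :=
    fun i x y h1 h2 => hOa x y (a2 i x y h1).1 (a2 i y x h2).1
  have hUR : ∀ t, UG (mm t) (hne t) ≤ R := by
    intro t x y hxy
    rcases hxy with h1 | h1
    · exact hOR x y (a2 t x y h1).1
    · exact (hOR y x (a2 t y x h1).1).symm
  have hcol : ∀ t x y, (UG (mm t) (hne t)).Adj x y → col (arc O x y).1 (arc O x y).2 = t := by
    intro t x y hxy
    rcases hxy with h1 | h1
    · obtain ⟨h2, h3⟩ := a2 t x y h1
      rw [(arc_of hOa h2).1, h3]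
    · obtain ⟨h2, h3⟩ := a2 t y x h1
      rw [(arc_of hOa h2).2, h3]
  have hdeg : ∀ t v, ((UG (mm t) (hne t)).neighborSet v).ncard =
      {w | mm t v w}.ncard + {w | mm t w v}.ncard :=
    fun t v => ug_nbr (mm t) (hne t) (hasy t) v
  obtain ⟨j0, hj0⟩ := hj
  -- the graphs of maximum degree four
  have hP : ∀ t : Fin s, ∃ H : Fin (5 * j0) → SimpleGraph V, (∀ i, H i ≤ UG (mm t) (hne t)) ∧
      (∀ i i', i ≠ i' → Disjoint (H i) (H i')) ∧ (⨆ i, H i) = UG (mm t) (hne t) ∧
      ∀ i v, ((H i).neighborSet v).ncard ≤ 4 := by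
    intro t
    refine hPet V (UG (mm t) (hne t)) (5 * j0) (fun v => ?_)
    rw [hdeg]
    have b1 := (a3 t v).1
    have b2 := (a4 t v).1
    omega
  choose HH p1 p2 p3 p4 using hP
  have hTs : T = s * (5 * j0) := by
    have : 4 * T = 4 * (s * (5 * j0)) := by
      rw [hT, hj0]
      ring
    omega
  subst hTs
  obtain ⟨en, hen⟩ : ∃ en : Fin (s * (5 * j0)) ≃ Fin s × Fin (5 * j0), en = finProdFinEquiv.symm :=
    ⟨_, rfl⟩
  have hcol' : ∀ t x y, (HH (en t).1 (en t).2).Adj x y →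
      col (arc O x y).1 (arc O x y).2 = (en t).1 :=
    fun t x y hxy => hcol _ x y (p1 _ _ hxy)
  have harcs : ∀ t (z : ℕ → V) (l : ℕ), (∀ s, s < l → (HH (en t).1 (en t).2).Adj (z s) (z (s + 1))) →
      ∀ e ∈ arcs O z l, col e.1 e.2 = (en t).1 := by
    intro t z l hz e he
    unfold arcs at he
    rw [Finset.mem_image] at he
    obtain ⟨s, hs, rfl⟩ := he
    exact hcol' t _ _ (hz s (Finset.mem_range.mp hs))
  have hsum : ∀ v, ∑ t, ((HH (en t).1 (en t).2).neighborSet v).ncard =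
      ∑ t : Fin s, ({w | mm t v w}.ncard + {w | mm t w v}.ncard) := by
    intro v
    rw [Equiv.sum_comp en (fun p : Fin s × Fin (5 * j0) => ((HH p.1 p.2).neighborSet v).ncard),
      Fintype.sum_prod_type]
    refine Finset.sum_congr rfl fun t _ => ?_
    rw [← hdeg]
    exact sum_deg (HH t) _ (p2 t) (p3 t) v
  have hHR : ∀ t, HH (en t).1 (en t).2 ≤ R := fun t => (p1 _ _).trans (hUR _)
  refine ⟨fun t => HH (en t).1 (en t).2, {v | lab v ≠ none}, hHR, ?_, fun t v => p4 _ _ v, ?_, ?_,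
    ?_, ?_, ?_, ?_, ?_⟩
  · -- disjoint
    intro t t' htt
    by_cases h1 : (en t).1 = (en t').1
    · have h2 : (en t).2 ≠ (en t').2 := fun h2 => htt (en.injective (Prod.ext h1 h2))
      show Disjoint (HH (en t).1 (en t).2) (HH (en t').1 (en t').2)
      rw [h1]
      exact p2 _ _ _ h2
    · rw [disjoint_iff_inf_le]
      intro x y hxy
      exact h1 ((hcol' t x y hxy.1).symm.trans (hcol' t' x y hxy.2))
  · -- degree sums
    intro v hv
    have hv' : lab v = none := by
      by_contra h1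
      exact hv h1
    rw [hsum]
    have e : ∀ t : Fin s, {w | mm t v w}.ncard + {w | mm t w v}.ncard = 20 * j0 := by
      intro t
      rw [(a3 t v).2.2 (by rw [hv']; simp), (a4 t v).2.2 (by rw [hv']; simp)]
      omega
    rw [Finset.sum_congr rfl fun t _ => e t, Finset.sum_const, Finset.card_univ, Fintype.card_fin,
      smul_eq_mul]
    ring
  · intro v
    show 4 * (s * (5 * j0)) ≤ (∑ t, ((HH (en t).1 (en t).2).neighborSet v).ncard) + 1
    rw [hsum]
    rcases hv : lab v with _ | p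
    · have e : ∀ t : Fin s, {w | mm t v w}.ncard + {w | mm t w v}.ncard = 20 * j0 := by
        intro t
        rw [(a3 t v).2.2 (by rw [hv]; simp), (a4 t v).2.2 (by rw [hv]; simp)]
        omega
      rw [Finset.sum_congr rfl fun t _ => e t, Finset.sum_const, Finset.card_univ,
        Fintype.card_fin, smul_eq_mul]
      nlinarith
    · have e : ∀ t : Fin s, 20 * j0 ≤ {w | mm t v w}.ncard + {w | mm t w v}.ncard +
          (if t = p.1 then 1 else 0) := by
        intro t
        obtain ⟨i, bb⟩ := p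
        by_cases ht : t = i
        · subst ht
          rw [if_pos rfl]
          cases bb
          · have h1 := (a3 t v).2.2 (by rw [hv]; simp)
            have h2 := (a4 t v).2.1
            omega
          · have h1 := (a4 t v).2.2 (by rw [hv]; simp)
            have h2 := (a3 t v).2.1
            omega
        · have q' : ∀ c, lab v ≠ some (t, c) := fun c h1 =>
            ht (congrArg Prod.fst (Option.some.inj (hv.symm.trans h1))).symm
          rw [if_neg ht, (a3 t v).2.2 (q' _), (a4 t v).2.2 (q' _)]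
          omega
      have h1 : ∑ _t : Fin s, 20 * j0 ≤ ∑ t : Fin s, ({w | mm t v w}.ncard +
          {w | mm t w v}.ncard + (if t = p.1 then 1 else 0)) := Finset.sum_le_sum fun t _ => e t
      rw [Finset.sum_const, Finset.card_univ, Fintype.card_fin, smul_eq_mul,
        Finset.sum_add_distrib] at h1
      simp only [Finset.sum_ite_eq', Finset.mem_univ, if_true] at h1
      nlinarith
  · -- girth
    intro t v c hc
    show N < c.length
    by_contra hcon
    push Not at hcon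
    have hC := Hcy.isC_of_cycle _ c hc
    have h3 : 3 ≤ c.length := hC.1
    obtain ⟨l, hl⟩ : ∃ l, c.length = l + 1 := ⟨c.length - 1, by omega⟩
    rw [hl] at hC
    have hz : ∀ s, s ≤ l + 1 → cyc (fun i : Fin (l + 1) => c.getVert i.val) s = c.getVert s := by
      intro s hs
      rcases Nat.lt_or_ge l s with h1 | h1
      · have h2 : s = l + 1 := by omega
        rw [h2, cyc_end, hC.2.2.1]
      · exact cyc_eq _ l s h1
    have hC' : IsC (HH (en t).1 (en t).2) (cyc (fun i : Fin (l + 1) => c.getVert i.val)) (l + 1) :=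
      isC_congr hz hC
    have hC'' : IsC R (cyc (fun i : Fin (l + 1) => c.getVert i.val)) (l + 1) :=
      Hcy.isC_mono (hHR t) hC'
    refine hev (Sum.inl ⟨⟨⟨l, by omega⟩, fun i : Fin (l + 1) => c.getVert i.val⟩, hC''⟩)
      ⟨(en t).1, ?_⟩
    intro e he
    exact harcs t (cyc (fun i : Fin (l + 1) => c.getVert i.val)) (l + 1) hC'.2.1 e he
  · -- heavy paths
    intro t z hz hH
    have hzz : ∀ s, s ≤ n → cyc (fun i : Fin (n + 1) => z i.val) s = z s :=
      fun s hs => cyc_eq z n s hs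
    have hP' : IsP (HH (en t).1 (en t).2) (cyc (fun i : Fin (n + 1) => z i.val)) n :=
      isP_congr hzz hz
    refine hev (Sum.inr ⟨fun i : Fin (n + 1) => z i.val, isP_mono (hHR t) hP',
      heavy_congr hzz hH⟩) ⟨(en t).1, ?_⟩
    intro e he
    exact harcs t (cyc (fun i : Fin (n + 1) => z i.val)) n hP'.1 e he
  · intro x hx y hy hxy hn
    rcases hl2 x y hxy hn with h1 | h1
    · exact hx h1
    · exact hy h1
  · intro x hx y hy hn
    exact hl1 x hx y hy hn
  · -- forced edges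
    intro ξ
    obtain ⟨t0, ht0⟩ : ∃ t0, t0 = col (arc O (ce ξ (sel ξ)).1 (ce ξ (sel ξ)).2).1
      (arc O (ce ξ (sel ξ)).1 (ce ξ (sel ξ)).2).2 := ⟨_, rfl⟩
    have h1 := a1 t0 (arc O (ce ξ (sel ξ)).1 (ce ξ (sel ξ)).2).1
      (arc O (ce ξ (sel ξ)).1 (ce ξ (sel ξ)).2).2 ⟨(harc ξ (sel ξ)).1, ht0.symm, ξ, rfl⟩
    have h2 : (UG (mm t0) (hne t0)).Adj (ce ξ (sel ξ)).1 (ce ξ (sel ξ)).2 := by
      rcases (harc ξ (sel ξ)).2 with h3 | h3
      · rw [h3] at h1
        exact Or.inl h1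
      · rw [h3] at h1
        exact Or.inr h1
    rw [← p3 t0, iSup_adj] at h2
    obtain ⟨i, hi⟩ := h2
    refine ⟨sel ξ, en.symm (t0, i), ?_⟩
    show (HH (en (en.symm (t0, i))).1 (en (en.symm (t0, i))).2).Adj _ _
    rw [Equiv.apply_symm_apply]
    exact hi

end H46

end Pool.Agent.CG
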