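import Pool.Agent.Helper9_CG.Stmt

/-!
# CG, module NUMRC: the numbers of one round
-/

set_option autoImplicit false

namespace Pool.Agent.CG

open SimpleGraph Pool.Agent.LAG Pool.Agent.LLG

namespace H46.Num

/-- Comparison of powers. -/
theorem pw {K C : ℝ} (hK : (10 : ℝ) ^ 12 ≤ K) (hC : C ≤ 10 ^ 12) {p q : ℕ} (hpq : p < q) :
    C * K ^ p ≤ K ^ q := by
  have h0 : (1 : ℝ) ≤ K := le_trans (by norm_num) hK
  calc C * K ^ p ≤ K * K ^ p := by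
        apply mul_le_mul_of_nonneg_right (hC.trans hK)
        positivity
    _ = K ^ (p + 1) := by rw [pow_succ, mul_comm]
    _ ≤ K ^ q := pow_le_pow_right₀ h0 hpq

/-- The first condition of NumE. -/
theorem e1 {K s b : ℝ} {N L h : ℕ} (hK : (10 : ℝ) ^ 12 ≤ K) (hh : h = 100000000)
    (hs : 0 < s) (h2 : 2 * K / s ≤ 2 ^ 28) (hL : (2 : ℝ) ^ L ≤ K) (hN : N = 336000 * (L + 10))
    (hNK : (N : ℝ) ≤ K) (hb0 : 0 < b) (hb : b ≤ K ^ 4006) :
    2 * (N : ℝ) ^ 2 * (2 * K / s) ^ N * ((2 * K) ^ h)⁻¹ ≤ 1 / (K ^ 3 * b) / 2 := by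
  have hK0 : (0 : ℝ) < K := lt_of_lt_of_le (by norm_num) hK
  have hK1 : (1 : ℝ) ≤ K := le_trans (by norm_num) hK
  have a1 : (2 * K / s) ^ N ≤ 2 ^ h * K ^ 9408000 := by
    calc (2 * K / s) ^ N ≤ ((2 : ℝ) ^ 28) ^ N := pow_le_pow_left₀ (by positivity) h2 N
      _ = ((2 : ℝ) ^ (L + 10)) ^ 9408000 := by
          have e : 28 * N = (L + 10) * 9408000 := by omega
          rw [← pow_mul, ← pow_mul, e]
      _ = ((2 : ℝ) ^ 10) ^ 9408000 * ((2 : ℝ) ^ L) ^ 9408000 := by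
          rw [← mul_pow, ← pow_add, add_comm]
      _ = (2 : ℝ) ^ 94080000 * ((2 : ℝ) ^ L) ^ 9408000 := by
          have e : 10 * 9408000 = 94080000 := by norm_num
          rw [← pow_mul, e]
      _ ≤ 2 ^ h * K ^ 9408000 := by
          apply mul_le_mul
          · apply pow_le_pow_right₀ (by norm_num)
            omega
          · exact pow_le_pow_left₀ (by positivity) hL _
          · positivity
          · positivity
  have a2 : 4 * K ^ 2 * K ^ 9408000 * K ^ 3 * b ≤ K ^ h := by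
    calc 4 * K ^ 2 * K ^ 9408000 * K ^ 3 * b ≤ 4 * K ^ 2 * K ^ 9408000 * K ^ 3 * K ^ 4006 :=
          mul_le_mul_of_nonneg_left hb (by positivity)
      _ = 4 * K ^ 9412011 := by
          have e : 2 + (9408000 + (3 + 4006)) = 9412011 := by norm_num
          rw [mul_assoc, mul_assoc, mul_assoc, ← pow_add, ← pow_add, ← pow_add, e]
      _ ≤ K ^ h := pw hK (by norm_num) (by omega)
  calc 2 * (N : ℝ) ^ 2 * (2 * K / s) ^ N * ((2 * K) ^ h)⁻¹
      ≤ 2 * K ^ 2 * (2 ^ h * K ^ 9408000) * ((2 * K) ^ h)⁻¹ := by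
        apply mul_le_mul_of_nonneg_right _ (by positivity)
        apply mul_le_mul _ a1 (by positivity) (by positivity)
        apply mul_le_mul_of_nonneg_left _ (by norm_num)
        exact pow_le_pow_left₀ (by positivity) hNK 2
    _ = (2 * K ^ 2 * K ^ 9408000) / K ^ h := by
        rw [mul_pow]
        have : (2 : ℝ) ^ h ≠ 0 := by positivity
        have : (K : ℝ) ^ h ≠ 0 := by positivity
        field_simp
    _ ≤ 1 / (K ^ 3 * b) / 2 := by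
        rw [div_div, div_le_div_iff₀ (by positivity) (by positivity), one_mul]
        refine le_trans (le_of_eq ?_) a2
        ring

/-- The second condition of NumE. -/
theorem e2 {K s b : ℝ} {n : ℕ} (hK : (10 : ℝ) ^ 12 ≤ K) (hn : n = 40000000)
    (hs : 0 < s) (hsK : s ≤ K) (h2 : 4 * K / s ≤ 2 ^ 29) (hKK : (2 : ℝ) ^ 232002 ≤ K)
    (hb0 : 0 < b) (hb : b ≤ K ^ 4006) :
    2 * (n : ℝ) * s * (4 * K / s) ^ n * (((4 : ℕ) : ℝ) / (2 * K)) ^ (n / 4000) ≤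
      1 / (K ^ 3 * b) / 2 := by
  have hK0 : (0 : ℝ) < K := lt_of_lt_of_le (by norm_num) hK
  have hn4 : n / 4000 = 10000 := by omega
  have a1 : (4 * K / s) ^ n * (((4 : ℕ) : ℝ) / (2 * K)) ^ (n / 4000) ≤ (K ^ 5000)⁻¹ := by
    calc (4 * K / s) ^ n * (((4 : ℕ) : ℝ) / (2 * K)) ^ (n / 4000)
        ≤ ((2 : ℝ) ^ 29) ^ n * (2 / K) ^ 10000 := by
          rw [hn4]
          apply mul_le_mul
          · exact pow_le_pow_left₀ (by positivity) h2 n
          · apply pow_le_pow_left₀ (by positivity)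
            apply le_of_eq
            push_cast
            field_simp
            norm_num
          · positivity
          · positivity
      _ = ((2 ^ 116000 * (2 / K)) ^ 2) ^ 5000 := by
          have e : 29 * n = 116000 * 10000 := by omega
          have e' : 2 * 5000 = 10000 := by norm_num
          rw [← pow_mul, ← pow_mul, e, e', mul_pow, ← pow_mul]
      _ ≤ (K⁻¹) ^ 5000 := by
          apply pow_le_pow_left₀ (by positivity)
          rw [mul_pow, div_pow, ← pow_mul]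
          have e' : 116000 * 2 + 2 = 232002 := by norm_num
          have e : (2 : ℝ) ^ (116000 * 2) * (2 ^ 2 / K ^ 2) = 2 ^ 232002 / K ^ 2 := by
            rw [mul_div_assoc', ← pow_add, e']
          rw [e, div_le_iff₀ (by positivity)]
          calc (2 : ℝ) ^ 232002 ≤ K := hKK
            _ = K⁻¹ * K ^ 2 := by field_simp
      _ = (K ^ 5000)⁻¹ := by rw [inv_pow]
  have a2 : 4 * (n : ℝ) * s * K ^ 3 * b ≤ K ^ 5000 := by
    calc 4 * (n : ℝ) * s * K ^ 3 * b ≤ 4 * (n : ℝ) * K * K ^ 3 * K ^ 4006 := by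
          apply mul_le_mul _ hb hb0.le (by positivity)
          apply mul_le_mul_of_nonneg_right _ (by positivity)
          exact mul_le_mul_of_nonneg_left hsK (by positivity)
      _ = 4 * (n : ℝ) * K ^ 4010 := by ring
      _ ≤ K ^ 5000 := by
          apply pw hK _ (by norm_num)
          rw [hn]
          norm_num
  calc 2 * (n : ℝ) * s * (4 * K / s) ^ n * (((4 : ℕ) : ℝ) / (2 * K)) ^ (n / 4000)
      = 2 * (n : ℝ) * s * ((4 * K / s) ^ n * (((4 : ℕ) : ℝ) / (2 * K)) ^ (n / 4000)) := by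
        rw [mul_assoc]
    _ ≤ 2 * (n : ℝ) * s * (K ^ 5000)⁻¹ := mul_le_mul_of_nonneg_left a1 (by positivity)
    _ = (2 * (n : ℝ) * s) / K ^ 5000 := by rw [div_eq_mul_inv]
    _ ≤ 1 / (K ^ 3 * b) / 2 := by
        rw [div_div, div_le_div_iff₀ (by positivity) (by positivity), one_mul]
        refine le_trans (le_of_eq ?_) a2
        ring

/-- The ratio of the pick process. -/
theorem ratio {K D w : ℝ} (hK : (10 : ℝ) ^ 12 ≤ K) (hD0 : 0 ≤ D) (hw0 : 0 < w) (hD : D ^ 8 ≤ K)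
    (hw : K ≤ w ^ 2) : K ^ 2 * (D / w) ^ 10000 ≤ (K ^ 3740)⁻¹ := by
  have hK0 : (0 : ℝ) < K := lt_of_lt_of_le (by norm_num) hK
  have hK1 : (1 : ℝ) ≤ K := le_trans (by norm_num) hK
  have a1 : (D / w) ^ 8 ≤ (K ^ 3)⁻¹ := by
    rw [div_pow, div_le_iff₀ (by positivity)]
    have h4 : K ^ 4 ≤ w ^ 8 := by
      calc K ^ 4 ≤ (w ^ 2) ^ 4 := pow_le_pow_left₀ hK0.le hw 4
        _ = w ^ 8 := by rw [← pow_mul]
    calc D ^ 8 ≤ K := hD
      _ = (K ^ 3)⁻¹ * K ^ 4 := by field_simp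
      _ ≤ (K ^ 3)⁻¹ * w ^ 8 := mul_le_mul_of_nonneg_left h4 (by positivity)
  have e : 8 * 1250 = 10000 := by norm_num
  have e2 : 3 * 1250 = 3750 := by norm_num
  calc K ^ 2 * (D / w) ^ 10000 = K ^ 2 * ((D / w) ^ 8) ^ 1250 := by rw [← pow_mul, e]
    _ ≤ K ^ 2 * ((K ^ 3)⁻¹) ^ 1250 := by
        apply mul_le_mul_of_nonneg_left _ (by positivity)
        exact pow_le_pow_left₀ (by positivity) a1 _
    _ = K ^ 2 * (K ^ 3750)⁻¹ := by rw [inv_pow, ← pow_mul, e2]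
    _ ≤ (K ^ 3740)⁻¹ := by
        rw [← div_eq_mul_inv, div_le_iff₀ (by positivity), inv_mul_eq_div,
          le_div_iff₀ (by positivity), ← pow_add]
        exact pow_le_pow_right₀ hK1 (by norm_num)

/-- The bound for `kap`. -/
theorem kap_le {k m D w c : ℕ} {K : ℝ} (hk : (k : ℝ) = K) (hK : (10 : ℝ) ^ 12 ≤ K)
    (hc : c = 10000) (hw0 : (0 : ℝ) < w) (hD : (D : ℝ) ^ 8 ≤ K) (hw : K ≤ (w : ℝ) ^ 2)
    (hm : K ^ 8000 ≤ m) : kap k c m D w ≤ 3 * (K ^ 7000)⁻¹ := by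
  have hK0 : (0 : ℝ) < K := lt_of_lt_of_le (by norm_num) hK
  have hK1 : (1 : ℝ) ≤ K := le_trans (by norm_num) hK
  have h1 := ratio hK (Nat.cast_nonneg D) hw0 hD hw
  have hm0 : (0 : ℝ) < m := lt_of_lt_of_le (by positivity) hm
  unfold kap
  rw [hk, hc]
  have h2 : 1 / (m : ℝ) ≤ (K ^ 7000)⁻¹ := by
    rw [← one_div]
    apply one_div_le_one_div_of_le (by positivity)
    exact le_trans (pow_le_pow_right₀ hK1 (by norm_num)) hm
  have h3 : (K ^ 2 * ((D : ℝ) / w) ^ 10000) ^ 2 ≤ (K ^ 7000)⁻¹ := by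
    calc (K ^ 2 * ((D : ℝ) / w) ^ 10000) ^ 2 ≤ ((K ^ 3740)⁻¹) ^ 2 :=
          pow_le_pow_left₀ (by positivity) h1 2
      _ = (K ^ 7480)⁻¹ := by
          have e : 3740 * 2 = 7480 := by norm_num
          rw [inv_pow, ← pow_mul, e]
      _ ≤ (K ^ 7000)⁻¹ := by
          rw [← one_div, ← one_div]
          apply one_div_le_one_div_of_le (by positivity)
          exact pow_le_pow_right₀ hK1 (by norm_num)
  linarith

/-- The conditions of NumC which contain the exponential. -/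
theorem cexp {K s b n1 η em : ℝ} (hK : (10 : ℝ) ^ 12 ≤ K) (hs0 : 0 < s)
    (hs : 120000000 * s ≤ K) (hb0 : 0 < b) (hb : b ≤ K ^ 4006) (hn : n1 * (8 * K ^ 3) ≤ b)
    (hem : em = (K ^ 10000)⁻¹) (hη : η = 1 / (K ^ 3 * b)) :
    4 * s * K ^ 2 * em + 4 * s * η ≤ 1 / (400 * K ^ 2 * b) ∧
    8 * s * em + 32 * n1 * s ^ 2 / b ^ 2 ≤ 1 / (400 * b) ∧
    24 * s * em ≤ 1 / (400 * b) := by
  have hK0 : (0 : ℝ) < K := lt_of_lt_of_le (by norm_num) hK
  have hsK : s ≤ K := by linarith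
  have hX : 0 < K ^ 10000 := by positivity
  -- the basic estimate
  have key : (19200 * K ^ 4 * s) * b ≤ K ^ 10000 := by
    calc (19200 * K ^ 4 * s) * b ≤ (19200 * K ^ 4 * K) * K ^ 4006 := by
          apply mul_le_mul _ hb hb0.le (by positivity)
          exact mul_le_mul_of_nonneg_left hsK (by positivity)
      _ = 19200 * K ^ 4011 := by ring
      _ ≤ K ^ 10000 := pw hK (by norm_num) (by norm_num)
  have hem' : em * ((19200 * K ^ 4 * s) * b) ≤ 1 := by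
    rw [hem, inv_mul_eq_div, div_le_one hX]
    exact key
  have hem0 : 0 < em := by
    rw [hem]
    positivity
  have hK12 : (1000000000000 : ℝ) ≤ K := by
    refine le_trans ?_ hK
    norm_num
  have hK41 : (1 : ℝ) ≤ K ^ 4 := by
    have : (1 : ℝ) ≤ K := by linarith
    exact one_le_pow₀ this
  have hsmall : em * (19200 * s * b) ≤ 1 := by
    refine le_trans ?_ hem'
    have : em * (19200 * K ^ 4 * s * b) = em * (19200 * s * b) * K ^ 4 := by ring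
    rw [this]
    exact le_mul_of_one_le_right (by positivity) hK41
  refine ⟨?_, ?_, ?_⟩
  · rw [le_div_iff₀ (by positivity), hη]
    have h1 : 4 * s * (1 / (K ^ 3 * b)) * (400 * K ^ 2 * b) = 1600 * s / K := by
      field_simp
      ring
    have h2 : 1600 * s / K ≤ 1 / 2 := by
      rw [div_le_iff₀ hK0]
      linarith
    have h3 : 4 * s * K ^ 2 * em * (400 * K ^ 2 * b) ≤ 1 / 2 := by
      have : 4 * s * K ^ 2 * em * (400 * K ^ 2 * b) = em * ((19200 * K ^ 4 * s) * b) / 12 := by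
        ring
      rw [this]
      linarith
    linarith [h1, h2, h3, add_mul (4 * s * K ^ 2 * em) (4 * s * (1 / (K ^ 3 * b)))
      (400 * K ^ 2 * b)]
  · rw [le_div_iff₀ (by positivity)]
    have h1 : 8 * s * em * (400 * b) ≤ 1 / 2 := by
      have : 8 * s * em * (400 * b) = em * (19200 * s * b) / 6 := by ring
      rw [this]
      linarith
    have h2 : 32 * n1 * s ^ 2 / b ^ 2 * (400 * b) ≤ 1 / 2 := by
      have e : 32 * n1 * s ^ 2 / b ^ 2 * (400 * b) = 12800 * n1 * s ^ 2 / b := by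
        field_simp
        ring
      rw [e, div_le_iff₀ hb0]
      have h3 : s ^ 2 ≤ K ^ 2 := pow_le_pow_left₀ hs0.le hsK 2
      rcases le_or_gt n1 0 with h4 | h4
      · have : 12800 * n1 * s ^ 2 ≤ 0 := by
          have := mul_nonneg (neg_nonneg.2 h4) (sq_nonneg s)
          nlinarith
        linarith
      · have h5 : 12800 * n1 * s ^ 2 ≤ 12800 * n1 * K ^ 2 :=
          mul_le_mul_of_nonneg_left h3 (by positivity)
        have h6 : 12800 * n1 * K ^ 2 ≤ 1 / 2 * (n1 * (8 * K ^ 3)) := by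
          have : 1 / 2 * (n1 * (8 * K ^ 3)) - 12800 * n1 * K ^ 2 = n1 * K ^ 2 * (4 * K - 12800) := by
            ring
          have h7 : 0 ≤ n1 * K ^ 2 * (4 * K - 12800) := by
            apply mul_nonneg (by positivity)
            linarith
          linarith
        linarith
    linarith [add_mul (8 * s * em) (32 * n1 * s ^ 2 / b ^ 2) (400 * b)]
  · rw [le_div_iff₀ (by positivity)]
    have : 24 * s * em * (400 * b) = em * (19200 * s * b) / 2 := by ring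
    rw [this]
    linarith

/-- The conditions of MACH. -/
theorem numM (hI : NumiStmt) {k T L n : ℕ} (hL : L = Nat.log 2 k) (hk : 10 ^ 12 ≤ k)
    (hT1 : 1 ≤ T) (hT : T ≤ k) (hn : n = 40000000) :
    NumM k T (168000 * (L + 10)) n (2 ^ 43 * ((2 * k + 3) ^ 2003 + 2) ^ 24)
      (2 ^ 12 * ((2 * k + 3) ^ 2003 + 2)) (2 ^ 45 * ((2 * k + 3) ^ 2003 + 2) ^ 24)
      (2 ^ 36 * ((2 * k + 3) ^ 2003 + 2) ^ 23) (128 * T * (2 * k + 3) ^ 2000) := by
  obtain ⟨z, hz⟩ : ∃ z, z = 2 * k + 3 := ⟨_, rfl⟩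
  rw [← hz]
  have hz1 : 10 ^ 12 ≤ z := by omega
  have hz0 : 1 ≤ z := le_trans (by norm_num) hz1
  have hTz : T ≤ z := by omega
  obtain ⟨Y, hY⟩ : ∃ Y, Y = z ^ 2000 := ⟨_, rfl⟩
  have hY1 : 1 ≤ Y := by
    rw [hY]
    exact Nat.one_le_pow _ _ hz0
  have hDY : z ^ 2003 = z ^ 3 * Y := by
    have e : 2003 = 3 + 2000 := by norm_num
    rw [hY, ← pow_add]
  have hc1 : 2 ^ 273 * (z ^ 2003 + 2) ^ 122 ≤ 3 ^ (168000 * (L + 10)) := by
    have h1 : k < 2 ^ (L + 1) := by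
      rw [hL]
      exact Nat.lt_pow_succ_log_self (by norm_num) k
    have h2 : z ≤ 2 ^ (L + 3) := by
      have e : 2 ^ (L + 3) = 4 * 2 ^ (L + 1) := by
        rw [show L + 3 = (L + 1) + 2 by ring, pow_add]
        ring
      rw [e]
      omega
    have h3 : z ^ 2003 + 2 ≤ 2 ^ ((L + 3) * 2003 + 1) := by
      have h4 : z ^ 2003 ≤ 2 ^ ((L + 3) * 2003) := by
        rw [pow_mul]
        exact Nat.pow_le_pow_left h2 _
      have h5 : 2 ≤ 2 ^ ((L + 3) * 2003) := by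
        calc 2 = 2 ^ 1 := (pow_one 2).symm
          _ ≤ 2 ^ ((L + 3) * 2003) := Nat.pow_le_pow_right (by norm_num) (by omega)
      calc z ^ 2003 + 2 ≤ 2 ^ ((L + 3) * 2003) + 2 ^ ((L + 3) * 2003) := Nat.add_le_add h4 h5
        _ = 2 * 2 ^ ((L + 3) * 2003) := (two_mul _).symm
        _ = 2 ^ ((L + 3) * 2003 + 1) := (pow_succ' 2 _).symm
    calc 2 ^ 273 * (z ^ 2003 + 2) ^ 122 ≤ 2 ^ 273 * (2 ^ ((L + 3) * 2003 + 1)) ^ 122 :=
          Nat.mul_le_mul_left _ (Nat.pow_le_pow_left h3 _)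
      _ = 2 ^ (273 + ((L + 3) * 2003 + 1) * 122) := by
          rw [← pow_mul, ← pow_add]
      _ ≤ 2 ^ (19 * (14000 * (L + 10))) := Nat.pow_le_pow_right (by norm_num) (by omega)
      _ = (2 ^ 19) ^ (14000 * (L + 10)) := by rw [pow_mul]
      _ ≤ (3 ^ 12) ^ (14000 * (L + 10)) := Nat.pow_le_pow_left (by norm_num) _
      _ = 3 ^ (168000 * (L + 10)) := by
          have e : 12 * (14000 * (L + 10)) = 168000 * (L + 10) := by omega
          rw [← pow_mul, e]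
  have hzY : z * Y ≤ z ^ 3 * Y := by
    apply Nat.mul_le_mul_right
    calc z = z ^ 1 := (pow_one z).symm
      _ ≤ z ^ 3 := Nat.pow_le_pow_right hz0 (by norm_num)
  have hTY : T * Y ≤ z * Y := Nat.mul_le_mul_right _ hTz
  have hc2 : T * z ^ 2000 ≤ (z ^ 2003 + 2) ^ 21 := by
    rw [← hY, hDY]
    calc T * Y ≤ z ^ 3 * Y := hTY.trans hzY
      _ ≤ z ^ 3 * Y + 2 := Nat.le_add_right _ _
      _ ≤ (z ^ 3 * Y + 2) ^ 21 := Nat.le_self_pow (by norm_num) _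
  have hNum := hI (z ^ 2003) (168000 * (L + 10)) (T * z ^ 2000) hc1 hc2
  have hzY0 : z ≤ z ^ 3 * Y := by
    calc z = z * 1 := (mul_one z).symm
      _ ≤ z * Y := Nat.mul_le_mul_left _ hY1
      _ ≤ z ^ 3 * Y := hzY
  have hX : ∀ X : ℕ, 1 ≤ X → 4 * (2 ^ 43 * X) ≤ 2 ^ 45 * X ∧ 8 * n + 20000 ≤ 2 ^ 45 * X := by
    intro X hX
    norm_num
    omega
  obtain ⟨x1, x2⟩ := hX ((z ^ 2003 + 2) ^ 24) (Nat.one_le_pow _ _ (Nat.succ_pos _))
  refine ⟨?_, hT1, by omega, x1, x2, ?_, ?_⟩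
  · rw [← hz]
    exact hNum
  · rw [← hz]
  · rw [hDY, ← hY, mul_assoc]
    norm_num at hz1
    have h1 : (2 : ℕ) ^ 12 = 4096 := by norm_num
    rw [h1]
    omega

/-- Logarithms are small. -/
theorem logN {k L N : ℕ} (hL : L = Nat.log 2 k) (hk : 2 ^ 50 ≤ k) (hN : N = 336000 * (L + 10)) :
    2 ^ L ≤ k ∧ N ≤ k := by
  have h1 : 2 ^ L ≤ k := by
    rw [hL]
    apply Nat.pow_log_le_self
    have : 0 < 2 ^ 50 := by norm_num
    omega
  refine ⟨h1, ?_⟩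
  have h50 : 50 ≤ L := by
    rw [hL]
    exact Nat.le_log_of_pow_le (by norm_num) hk
  obtain ⟨a, b, hab, hb, ha⟩ : ∃ a b, L = a + b ∧ 24 ≤ b ∧ a ≤ b ∧ b ≤ a + 1 :=
    ⟨L / 2, L - L / 2, by omega, by omega, by omega, by omega⟩
  have h2 : a < 2 ^ a := Nat.lt_two_pow_self
  have h3 : 2 ^ 24 ≤ 2 ^ b := Nat.pow_le_pow_right (by norm_num) hb
  have h4 : 2 ^ L = 2 ^ a * 2 ^ b := by rw [hab, pow_add]
  have h5 : N ≤ 2 ^ a * 2 ^ b := by
    calc N ≤ 2 ^ a * 2 ^ 24 := by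
          norm_num
          omega
      _ ≤ 2 ^ a * 2 ^ b := Nat.mul_le_mul_left _ h3
  omega


theorem sfacts {k s : ℕ} {K : ℝ} (hKk : K = (k : ℝ)) (hk : 1000000000000 ≤ k)
    (hs : s = k / 120000000) : 1000 ≤ s ∧ 120000000 * s ≤ k ∧ k < 120000000 * (s + 1) ∧
      (0 : ℝ) < s ∧ 120000000 * (s : ℝ) ≤ K ∧ 2 * K / s ≤ 2 ^ 28 ∧ 4 * K / s ≤ 2 ^ 29 ∧
      (s : ℝ) ≤ K := by
  have hs1 : 120000000 * s ≤ k := by
    rw [hs]
    exact Nat.mul_div_le _ _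
  have hs2 : k < 120000000 * (s + 1) := by
    rw [hs]
    exact Nat.lt_mul_div_succ _ (by norm_num)
  have hs3 : 1000 ≤ s := by omega
  have hsR1 : 120000000 * (s : ℝ) ≤ K := by
    rw [hKk]
    exact_mod_cast hs1
  have hsR2 : K ≤ 120000000 * ((s : ℝ) + 1) := by
    rw [hKk]
    exact_mod_cast hs2.le
  have hsR3 : (1000 : ℝ) ≤ s := by exact_mod_cast hs3
  have hsR0 : (0 : ℝ) < s := by linarith
  refine ⟨hs3, hs1, hs2, hsR0, hsR1, ?_, ?_, by linarith⟩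
  · rw [div_le_iff₀ hsR0]
    norm_num
    linarith
  · rw [div_le_iff₀ hsR0]
    norm_num
    linarith

theorem zfacts {K : ℝ} (hK12 : (1000000000000 : ℝ) ≤ K) :
    2 * K + 3 ≤ K ^ 2 ∧ 0 < 2 * K + 3 ∧ 2 * K ≤ 2 * K + 3 := by
  refine ⟨?_, ?_, ?_⟩
  · nlinarith
  · linarith
  · linarith

theorem bfacts {k b n1 : ℕ} {K : ℝ} (hKk : K = (k : ℝ)) (hK12 : (1000000000000 : ℝ) ≤ K)
    (hb : b = (2 * k + 3) ^ 2003) (hn1 : n1 = (2 * k + 3) ^ 2000) :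
    (b : ℝ) ≤ K ^ 4006 ∧ (n1 : ℝ) * (8 * K ^ 3) ≤ b ∧ 2 * k + 3 ≤ b := by
  have hK0 : (0 : ℝ) < K := lt_of_lt_of_le (by norm_num) hK12
  obtain ⟨hZ2, hZ0, hZ3⟩ := zfacts hK12
  obtain ⟨Z, hZ⟩ : ∃ Z : ℝ, Z = 2 * K + 3 := ⟨_, rfl⟩
  rw [← hZ] at hZ2 hZ0 hZ3
  have hZk : Z = ((2 * k + 3 : ℕ) : ℝ) := by
    rw [hZ, hKk]
    push_cast
    ring
  have hbR : (b : ℝ) = Z ^ 2003 := by
    rw [hb, hZk, Nat.cast_pow]
  have hn1R : (n1 : ℝ) = Z ^ 2000 := by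
    rw [hn1, hZk, Nat.cast_pow]
  refine ⟨?_, ?_, ?_⟩
  · rw [hbR]
    have e : 2 * 2003 = 4006 := by norm_num
    calc Z ^ 2003 ≤ (K ^ 2) ^ 2003 := pow_le_pow_left₀ hZ0.le hZ2 _
      _ = K ^ 4006 := by rw [← pow_mul, e]
  · rw [hbR, hn1R]
    have e : 2000 + 3 = 2003 := by norm_num
    have e3 : 8 * K ^ 3 = (2 * K) ^ 3 := by ring
    calc Z ^ 2000 * (8 * K ^ 3) = Z ^ 2000 * (2 * K) ^ 3 := by rw [e3]
      _ ≤ Z ^ 2000 * Z ^ 3 := by
          apply mul_le_mul_of_nonneg_left _ (by positivity)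
          exact pow_le_pow_left₀ (by positivity) hZ3 3
      _ = Z ^ 2003 := by rw [← pow_add, e]
  · rw [hb]
    exact Nat.le_self_pow (by norm_num) _

theorem dfacts {k : ℕ} (hk : 1000000000000 ≤ k) :
    ∃ d : ℕ, 1 ≤ d ∧ 256 * d ^ 8 ≤ k ∧ k ≤ d ^ 32 := by
  obtain ⟨d, hd1, hd2, hd3⟩ : ∃ d : ℕ, 1 ≤ d ∧ d ^ 16 ≤ k ∧ k < (2 * d) ^ 16 := by
    have sq : ∀ x : ℕ, Nat.sqrt x ^ 2 ≤ x ∧ x < (Nat.sqrt x + 1) ^ 2 := fun x =>
      ⟨Nat.sqrt_le' x, Nat.lt_succ_sqrt' x⟩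
    obtain ⟨d4, hd4⟩ : ∃ d4, d4 = Nat.sqrt (Nat.sqrt (Nat.sqrt (Nat.sqrt k))) := ⟨_, rfl⟩
    have u1 : d4 ^ 16 ≤ k := by
      calc d4 ^ 16 = (((d4 ^ 2) ^ 2) ^ 2) ^ 2 := by ring
        _ ≤ ((Nat.sqrt (Nat.sqrt (Nat.sqrt k)) ^ 2) ^ 2) ^ 2 := by
            apply Nat.pow_le_pow_left
            apply Nat.pow_le_pow_left
            apply Nat.pow_le_pow_left
            rw [hd4]
            exact (sq _).1
        _ ≤ (Nat.sqrt (Nat.sqrt k) ^ 2) ^ 2 := by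
            apply Nat.pow_le_pow_left
            apply Nat.pow_le_pow_left
            exact (sq _).1
        _ ≤ Nat.sqrt k ^ 2 := by
            apply Nat.pow_le_pow_left
            exact (sq _).1
        _ ≤ k := (sq _).1
    have u2 : k < (d4 + 1) ^ 16 := by
      calc k < (Nat.sqrt k + 1) ^ 2 := (sq _).2
        _ ≤ ((Nat.sqrt (Nat.sqrt k) + 1) ^ 2) ^ 2 := by
            apply Nat.pow_le_pow_left
            exact (sq _).2
        _ ≤ (((Nat.sqrt (Nat.sqrt (Nat.sqrt k)) + 1) ^ 2) ^ 2) ^ 2 := by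
            apply Nat.pow_le_pow_left
            apply Nat.pow_le_pow_left
            exact (sq _).2
        _ ≤ ((((d4 + 1) ^ 2) ^ 2) ^ 2) ^ 2 := by
            apply Nat.pow_le_pow_left
            apply Nat.pow_le_pow_left
            apply Nat.pow_le_pow_left
            rw [hd4]
            exact (sq _).2
        _ = (d4 + 1) ^ 16 := by
            rw [← pow_mul, ← pow_mul, ← pow_mul]
    have u3 : 1 ≤ d4 := by
      by_contra h0
      have : d4 = 0 := by omega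
      rw [this] at u2
      norm_num at u2
      omega
    refine ⟨d4, u3, u1, lt_of_lt_of_le u2 ?_⟩
    apply Nat.pow_le_pow_left
    omega
  refine ⟨d, hd1, ?_, ?_⟩
  · by_contra h0
    push Not at h0
    have h1 : k * k < (256 * d ^ 8) * (256 * d ^ 8) := Nat.mul_lt_mul'' h0 h0
    have h2 : (256 * d ^ 8) * (256 * d ^ 8) = 65536 * d ^ 16 := by ring
    have h3 : 65536 * k ≤ k * k := Nat.mul_le_mul_right _ (by omega)
    omega
  · by_contra h0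
    push Not at h0
    have h1 : k * k < (2 * d) ^ 16 * (2 * d) ^ 16 := Nat.mul_lt_mul'' hd3 hd3
    have h2 : (2 * d) ^ 16 * (2 * d) ^ 16 = 4294967296 * d ^ 32 := by ring
    have h3 : 4294967296 * k ≤ k * k := Nat.mul_le_mul_right _ (by omega)
    omega

theorem mfacts {k d h m : ℕ} {K : ℝ} (hKk : K = (k : ℝ)) (hd1 : 1 ≤ d) (hd : k ≤ d ^ 32)
    (hh : 256000 ≤ h) (hm : m = d ^ h) : K ^ 8000 ≤ (m : ℝ) := by
  have h1 : k ^ 8000 ≤ d ^ h := by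
    calc k ^ 8000 ≤ (d ^ 32) ^ 8000 := Nat.pow_le_pow_left hd _
      _ = d ^ (32 * 8000) := by rw [← pow_mul]
      _ ≤ d ^ h := Nat.pow_le_pow_right hd1 (by omega)
  rw [hKk, hm]
  have : ((k ^ 8000 : ℕ) : ℝ) ≤ ((d ^ h : ℕ) : ℝ) := Nat.cast_le.2 h1
  rw [Nat.cast_pow] at this
  exact this

theorem lfacts {K w : ℝ} (hK : (1000000000000 : ℝ) ≤ K) (hw0 : 0 < w) (hw2 : K ≤ w ^ 2) :
    1 ≤ Real.log K ∧ Real.log K ≤ K ∧ Real.log K ≤ 2 * w := by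
  have hK0 : (0 : ℝ) < K := by linarith
  refine ⟨?_, ?_, ?_⟩
  · rw [Real.le_log_iff_exp_le hK0]
    have := Real.exp_one_lt_d9
    linarith
  · have := Real.log_le_sub_one_of_pos hK0
    linarith
  · have h1 : Real.log K ≤ Real.log (w ^ 2) := Real.log_le_log hK0 hw2
    rw [Real.log_pow] at h1
    have h2 := Real.log_le_sub_one_of_pos hw0
    push_cast at h1
    linarith

theorem efacts {K : ℝ} (hK0 : 0 < K) :
    Real.exp (-(10000 * Real.log K)) = (K ^ 10000)⁻¹ := by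
  have h1 : Real.exp (10000 * Real.log K) = K ^ 10000 := by
    have e : (10000 : ℝ) = ((10000 : ℕ) : ℝ) := by norm_num
    rw [e, Real.exp_nat_mul, Real.exp_log hK0]
  rw [Real.exp_neg, h1]

theorem mb {K b m l : ℝ} (hK : (10 : ℝ) ^ 12 ≤ K) (hl0 : 0 ≤ l) (hl : l ≤ K) (hb0 : 0 < b)
    (hb : b ≤ K ^ 4006) (hm : K ^ 8000 ≤ m) : 100 * (10000 * l) * b ≤ m := by
  have hK0 : (0 : ℝ) < K := lt_of_lt_of_le (by norm_num) hK
  calc 100 * (10000 * l) * b ≤ 100 * (10000 * K) * K ^ 4006 := by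
        apply mul_le_mul _ hb hb0.le (by positivity)
        linarith
    _ = 1000000 * K ^ 4007 := by ring
    _ ≤ K ^ 8000 := pw hK (by norm_num) (by norm_num)
    _ ≤ m := hm

theorem kb {K b l x : ℝ} (hK : (10 : ℝ) ^ 12 ≤ K) (hl0 : 0 ≤ l) (hl : l ≤ K)
    (hb : b ≤ K ^ 4006) (hx0 : 0 ≤ x) (hx : x ≤ 3 * (K ^ 7000)⁻¹) : 1000 * b * l * x ≤ 1 := by
  have hK0 : (0 : ℝ) < K := lt_of_lt_of_le (by norm_num) hK
  calc 1000 * b * l * x ≤ 1000 * K ^ 4006 * K * (3 * (K ^ 7000)⁻¹) := by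
        apply mul_le_mul _ hx hx0 (by positivity)
        apply mul_le_mul _ hl hl0 (by positivity)
        exact mul_le_mul_of_nonneg_left hb (by norm_num)
    _ = (3000 * K ^ 4007) / K ^ 7000 := by
        rw [div_eq_mul_inv]
        ring
    _ ≤ 1 := by
        rw [div_le_one (by positivity)]
        exact pw hK (by norm_num) (by norm_num)

/-- The number is very large. -/
def BigK (k : ℕ) : Prop := (2 : ℝ) ^ 232002 ≤ (k : ℝ)

theorem e2' {k s n : ℕ} {K b : ℝ} (hKk : K = (k : ℝ)) (hK : (10 : ℝ) ^ 12 ≤ K)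
    (hn : n = 40000000) (hs : (0 : ℝ) < s) (hsK : (s : ℝ) ≤ K) (h2 : 4 * K / s ≤ 2 ^ 29)
    (hKK : BigK k) (hb0 : 0 < b) (hb : b ≤ K ^ 4006) :
    2 * (n : ℝ) * s * (4 * K / s) ^ n * (((4 : ℕ) : ℝ) / (2 * K)) ^ (n / 4000) ≤
      1 / (K ^ 3 * b) / 2 := by
  apply e2 hK hn hs hsK h2 _ hb0 hb
  rw [hKk]
  exact hKK

theorem half {K x : ℝ} (hK : (10 : ℝ) ^ 12 ≤ K) (hx : x ≤ (K ^ 3740)⁻¹) : x ≤ 1 / 2 := by
  have hK0 : (0 : ℝ) < K := lt_of_lt_of_le (by norm_num) hK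
  refine hx.trans ?_
  rw [inv_le_comm₀ (by positivity) (by norm_num)]
  have : (10 : ℝ) ^ 12 * K ^ 0 ≤ K ^ 3740 := pw hK le_rfl (by norm_num)
  rw [pow_zero, mul_one] at this
  refine le_trans ?_ this
  norm_num

/-- NumP. -/
theorem numP {k s c b m d w : ℕ} {K : ℝ} (hKk : K = (k : ℝ)) (hK : (10 : ℝ) ^ 12 ≤ K)
    (hk : 1000000000000 ≤ k) (hc : c = 10000) (hs3 : 1000 ≤ s) (hs1 : 120000000 * s ≤ k)
    (hs2 : k < 120000000 * (s + 1)) (hbk : 2 * k + 3 ≤ b) (hbR0 : (0 : ℝ) < b)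
    (hb1 : (b : ℝ) ≤ K ^ 4006) (hm1 : 1 ≤ m) (hmR : K ^ 8000 ≤ (m : ℝ)) (hd : 4 * d ≤ k)
    (hD8 : ((2 * d : ℕ) : ℝ) ^ 8 ≤ K) (hw : w = Nat.sqrt k + 1) (hw0 : (0 : ℝ) < w)
    (hw2 : K ≤ (w : ℝ) ^ 2) :
    NumP k s c (1000 * c) b m (2 * d) w 4 (10000 * Real.log K) := by
  have hK12 : (1000000000000 : ℝ) ≤ K := by
    refine le_trans ?_ hK
    norm_num
  obtain ⟨l1, l2, l3⟩ := lfacts hK12 hw0 hw2
  have hkap := kap_le (k := k) (m := m) (D := 2 * d) (w := w) (c := c) hKk.symm hK hc hw0 hD8 hw2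
    hmR
  have hkap0 : 0 ≤ kap k c m (2 * d) w := by
    unfold kap
    positivity
  have p14 := kb (l := Real.log K) hK (by linarith) l2 hb1 hkap0 hkap
  have p13 := half hK (ratio hK (Nat.cast_nonneg (2 * d)) hw0 hD8 hw2)
  have p16 := mb (l := Real.log K) hK (by linarith) l2 hbR0 hb1 hmR
  clear hb1 hmR hkap hkap0 hD8 hw2
  refine ⟨rfl, by omega, by rw [hc]; omega, by rw [hc]; omega, by omega, hm1, by omega, ?_, hw,
    ?_, ?_, by omega, ?_, ?_, by linarith, p16, ?_, ?_⟩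
  · refine le_trans ?_ hk
    norm_num
  · omega
  · have : 400 * 1 ≤ k * k := Nat.mul_le_mul (by omega) (by omega)
    rw [pow_two]
    omega
  · rw [← hKk, hc]
    exact p13
  · rw [← hKk]
    exact p14
  · rw [hc]
    push_cast
    linarith
  · rw [hc, ← hKk]
    push_cast
    linarith

/-- NumC. -/
theorem numC {k s c b m d w n1 N n : ℕ} {K η : ℝ} (hKk : K = (k : ℝ)) (hK : (10 : ℝ) ^ 12 ≤ K)
    (hk : 1000000000000 ≤ k) (hP : NumP k s c (1000 * c) b m (2 * d) w 4 (10000 * Real.log K))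
    (hs0 : (0 : ℝ) < s) (hsR1 : 120000000 * (s : ℝ) ≤ K) (hbR1 : (1 : ℝ) ≤ b)
    (hb1 : (b : ℝ) ≤ K ^ 4006) (hb2 : (n1 : ℝ) * (8 * K ^ 3) ≤ b)
    (hη : η = 1 / (K ^ 3 * b)) (hN : N ≤ k) (hn : n ≤ k) :
    NumC k s c (1000 * c) b m (2 * d) w 4 n1 (max N n) η (10000 * Real.log K) := by
  have hK0 : (0 : ℝ) < K := lt_of_lt_of_le (by norm_num) hK
  have hK1 : (1 : ℝ) ≤ K := le_trans (by norm_num) hK
  have hbR0 : (0 : ℝ) < b := by linarith
  obtain ⟨x1, x2, x3⟩ := cexp (em := Real.exp (-(10000 * Real.log K))) hK hs0 hsR1 hbR0 hb1 hb2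
    (efacts hK0) hη
  have h2 : ((max N n : ℕ) : ℝ) ≤ K := by
    rw [hKk]
    exact_mod_cast max_le hN hn
  have h3 : K * 1 * 1 ≤ K * K * b :=
    mul_le_mul (mul_le_mul_of_nonneg_left hK1 hK0.le) hbR1 (by norm_num) (by positivity)
  have h4 : 0 ≤ η := by
    rw [hη]
    positivity
  have h5 : ((max N n : ℕ) : ℝ) ≤ 200 * K ^ 2 * b := by
    have : 200 * K ^ 2 * b = 200 * (K * K * b) := by ring
    rw [this]
    linarith
  refine ⟨hP, h4, ?_, ?_, x2, x3⟩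
  · rw [← hKk]
    exact h5
  · rw [← hKk]
    exact x1

theorem asm {k T h s c j b d w N n hH a ℓ Tm L Nc n1 m : ℕ} {η M : ℝ} (q0 : 2 * T < k)
    (q1 : 2050 ≤ h) (hd1 : 1 ≤ d) (q2 : 4 * T = 10 * j * s) (q3 : Even j) (q4 : 2 * hH ≤ N)
    (q5 : s ≠ 0) (hn1 : n1 = (2 * k + 3) ^ 2000) (hm : m = d ^ h)
    (hC : NumC k s c j b m (2 * d) w 4 n1 (max N n) η M) (hE : NumE k s 4 h N n η)
    (hM : NumM k T hH n a ℓ Tm L Nc) : NumRC k T (2 * h) := by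
  refine ⟨q0, s, c, j, b, d, w, h, N, n, hH, a, ℓ, Tm, L, Nc, η, M, le_rfl, q1, hd1, q2, q3, q4,
    q5, ?_, hE, hM⟩
  rw [← hn1, ← hm]
  exact hC

theorem core (hI : NumiStmt) {k h c n : ℕ} (hh : h = 100000000) (hc : c = 10000)
    (hn : n = 40000000) (hk : 1000000000000 ≤ k) (hk50 : 2 ^ 50 ≤ k) (hkb : BigK k) :
    ∃ T, 1 ≤ T ∧ NumRC k T (2 * h) := by
  obtain ⟨K, hKk⟩ : ∃ K : ℝ, K = (k : ℝ) := ⟨_, rfl⟩
  have hK12 : (1000000000000 : ℝ) ≤ K := by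
    rw [hKk]
    exact_mod_cast hk
  have hK : (10 : ℝ) ^ 12 ≤ K := by
    refine le_trans ?_ hK12
    norm_num
  have hK0 : (0 : ℝ) < K := by linarith
  obtain ⟨s, hs⟩ : ∃ s : ℕ, s = k / 120000000 := ⟨_, rfl⟩
  obtain ⟨hs3, hs1, hs2, hsR0, hsR1, hs28, hs29, hsK⟩ := sfacts hKk hk hs
  obtain ⟨d, hd1, hd8, hd32⟩ := dfacts hk
  have hd4 : 4 * d ≤ k := by
    have : d ≤ d ^ 8 := Nat.le_self_pow (by norm_num) _
    omega
  have hD8 : (((2 * d : ℕ) : ℝ)) ^ 8 ≤ K := by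
    rw [hKk]
    have : (2 * d) ^ 8 ≤ k := by
      calc (2 * d) ^ 8 = 256 * d ^ 8 := by ring
        _ ≤ k := hd8
    exact_mod_cast this
  obtain ⟨w, hw⟩ : ∃ w : ℕ, w = Nat.sqrt k + 1 := ⟨_, rfl⟩
  have hw2 : K ≤ (w : ℝ) ^ 2 := by
    rw [hKk]
    have : k ≤ w ^ 2 := by
      rw [hw]
      exact (Nat.lt_succ_sqrt' k).le
    exact_mod_cast this
  have hw0 : (0 : ℝ) < w := by
    have : 0 < w := by omega
    exact_mod_cast this
  obtain ⟨L, hL⟩ : ∃ L, L = Nat.log 2 k := ⟨_, rfl⟩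
  obtain ⟨N, hN⟩ : ∃ N, N = 336000 * (L + 10) := ⟨_, rfl⟩
  have q4 : 2 * (168000 * (L + 10)) ≤ N := by
    rw [hN, ← mul_assoc]
    norm_num
  have q5 : s ≠ 0 := by omega
  have q1 : 2050 ≤ h := by
    rw [hh]
    norm_num
  have q0 : 2 * (25000000 * s) < k := by omega
  have q6 : 1 ≤ 25000000 * s := by omega
  obtain ⟨hLk, hNk⟩ := logN hL hk50 hN
  have hLK : (2 : ℝ) ^ L ≤ K := by
    rw [hKk]
    exact_mod_cast hLk
  have hNK : (N : ℝ) ≤ K := by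
    rw [hKk]
    exact_mod_cast hNk
  have q7 : 1000000000000 ≤ k := hk
  have q8 : 25000000 * s ≤ k := by omega
  have q9 : 8000 ≤ h := by
    rw [hh]
    norm_num
  have hnk : n ≤ k := by omega
  have hM := numM (T := 25000000 * s) hI hL q7 q6 q8 hn
  have r1 : 1 ≤ k := by omega
  have r2 : 1 ≤ s := by omega
  have r3 : s ≤ k := by omega
  have r4 : 4 ≤ k := by omega
  have r5 : 200 ≤ h := by omega
  have r6 : 2 ≤ n := by omega
  have r7 : 3 ≤ N := by omega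
  have r8 : 256000 ≤ h := by
    rw [hh]
    norm_num
  have r4' : 1 ≤ 2 * k + 3 := by omega
  obtain ⟨m, hmd⟩ : ∃ m : ℕ, m = d ^ h := ⟨_, rfl⟩
  have hmR := mfacts hKk hd1 hd32 r8 hmd
  have hm1 : 1 ≤ m := by
    rw [hmd]
    exact Nat.one_le_pow _ _ hd1
  obtain ⟨b, hb⟩ : ∃ b : ℕ, b = (2 * k + 3) ^ 2003 := ⟨_, rfl⟩
  obtain ⟨n1, hn1⟩ : ∃ n1 : ℕ, n1 = (2 * k + 3) ^ 2000 := ⟨_, rfl⟩
  obtain ⟨hb1, hb2, hbk⟩ := bfacts hKk hK12 hb hn1
  have hbR1 : (1 : ℝ) ≤ b := by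
    have : 1 ≤ b := le_trans r4' hbk
    exact_mod_cast this
  have hbR0 : (0 : ℝ) < b := lt_of_lt_of_le (by norm_num) hbR1
  obtain ⟨η, hη⟩ : ∃ η : ℝ, η = 1 / (K ^ 3 * b) := ⟨_, rfl⟩
  have y1 := e1 hK hh hsR0 hs28 hLK hN hNK hbR0 hb1
  have y2 := e2' hKk hK hn hsR0 hsK hs29 hkb hbR0 hb1
  rw [← hη] at y1 y2
  have hP := numP hKk hK hk hc hs3 hs1 hs2 hbk hbR0 hb1 hm1 hmR hd4 hD8 hw hw0 hw2
  have hC := numC (n := n) hKk hK hk hP hsR0 hsR1 hbR1 hb1 hb2 hη hNk hnk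
  have hE : NumE k s 4 h N n η := by
    refine ⟨r1, r2, r3, r4, r5, r6, r7, ?_, ?_⟩
    · rw [← hKk]
      exact y1
    · rw [← hKk]
      exact y2
  have q2 : 4 * (25000000 * s) = 10 * (1000 * c) * s := by
    rw [hc]
    omega
  have q3 : Even (1000 * c) := by
    rw [hc]
    exact ⟨5000000, rfl⟩
  exact ⟨25000000 * s, q6, asm q0 q1 hd1 q2 q3 q4 q5 hn1 hmd hC hE hM⟩

theorem numrc (hI : NumiStmt) : NumrcStmt := by
  obtain ⟨h, hh⟩ : ∃ h : ℕ, h = 100000000 := ⟨_, rfl⟩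
  obtain ⟨c, hc⟩ : ∃ c : ℕ, c = 10000 := ⟨_, rfl⟩
  obtain ⟨n, hn⟩ : ∃ n : ℕ, n = 40000000 := ⟨_, rfl⟩
  refine ⟨2 * h, 2 ^ 232002, by omega, ?_⟩
  intro k hk
  have hk50 : 2 ^ 50 ≤ k := le_trans (Nat.pow_le_pow_right (by norm_num) (by norm_num)) hk
  have hkb : BigK k := by
    have : ((2 ^ 232002 : ℕ) : ℝ) ≤ (k : ℝ) := Nat.cast_le.2 hk
    rw [Nat.cast_pow, Nat.cast_ofNat] at this
    exact this
  clear hk
  exact core hI hh hc hn (le_trans (by norm_num) hk50) hk50 hkb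

end H46.Num

end Pool.Agent.CG
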